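import Pool.Agent.helper51.NP.Spec

set_option autoImplicit false

namespace NPC

open Finset Real ArithmeticFunction Pool.Agent.helper39.MT Pool.Agent.helper85.FC

theorem CUB_cr (x : ℕ) : cr x ^ 3 ≤ x ∧ x < (cr x + 1) ^ 3 := by
  constructor
  · exact Nat.findGreatest_spec (P := fun r => r ^ 3 ≤ x) (m := 0) (n := x) (Nat.zero_le _)
      (by simp)
  · by_contra hcon
    push Not at hcon
    have h1 : cr x + 1 ≤ x := le_trans (Nat.le_self_pow (by norm_num) _) hcon
    exact Nat.findGreatest_is_greatest (P := fun r => r ^ 3 ≤ x) (n := x) (k := cr x + 1)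
      (Nat.lt_succ_self _) h1 hcon

/-- Cube roots. -/
theorem CUB : CUB_stmt := by
  refine ⟨CUB_cr, fun h u v r hu => ⟨?_, fun S => ?_⟩⟩
  · by_cases hex : ∃ n, 1 ≤ n ∧ cr (u * n + v) = r
    · classical
      obtain ⟨n₀, hn₀, hmin⟩ : ∃ n₀, (1 ≤ n₀ ∧ cr (u * n₀ + v) = r) ∧
          ∀ n, (1 ≤ n ∧ cr (u * n + v) = r) → n₀ ≤ n :=
        ⟨Nat.find hex, Nat.find_spec hex, fun n hn => Nat.find_min' hex hn⟩
      refine ⟨n₀ - 1, (n₀ - 1) + 3 * r ^ 2 + 3 * r + 2, by omega, le_rfl, fun n hn hr => ?_⟩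
      rw [Finset.mem_Ioc]
      have h1 := hmin n ⟨hn, hr⟩
      refine ⟨by omega, ?_⟩
      have h2 := (CUB_cr (u * n + v)).2
      have h3 := (CUB_cr (u * n₀ + v)).1
      rw [hr] at h2
      rw [hn₀.2] at h3
      obtain ⟨d, rfl⟩ := Nat.exists_eq_add_of_le h1
      have h4 : u * (n₀ + d) + v = u * n₀ + v + u * d := by ring
      have h5 : (r + 1) ^ 3 = r ^ 3 + (3 * r ^ 2 + 3 * r + 1) := by ring
      have h6 : d ≤ u * d := Nat.le_mul_of_pos_left d hu
      rw [h4, h5] at h2
      have h7 := hn₀.1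
      omega
    · push Not at hex
      exact ⟨0, 0, le_rfl, by omega, fun n hn hr => absurd hr (hex n hn)⟩
  · have hinj : Set.InjOn (fun n => u * n + v)
        ((S.filter fun n => cr (u * n + v) = r ∧
          ¬ (r ^ 3 < u * n + v ∧ u * n + v + h < (r + 1) ^ 3) : Finset ℕ) : Set ℕ) := by
      intro a _ b _ hab
      simp only [add_left_inj] at hab
      exact Nat.eq_of_mul_eq_mul_left hu hab
    rw [← Finset.card_image_of_injOn hinj]
    have hsub : (S.filter fun n => cr (u * n + v) = r ∧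
          ¬ (r ^ 3 < u * n + v ∧ u * n + v + h < (r + 1) ^ 3)).image (fun n => u * n + v) ⊆
        Finset.Ico ((r + 1) ^ 3 - h) ((r + 1) ^ 3) ∪ {r ^ 3} := by
      intro m hm
      rw [Finset.mem_image] at hm
      obtain ⟨n, hn, rfl⟩ := hm
      rw [Finset.mem_filter] at hn
      obtain ⟨-, hr, hno⟩ := hn
      have h1 := CUB_cr (u * n + v)
      rw [hr] at h1
      rw [Finset.mem_union, Finset.mem_Ico, Finset.mem_singleton]
      by_cases h2 : u * n + v = r ^ 3
      · exact Or.inr h2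
      · left
        have h3 : r ^ 3 < u * n + v := lt_of_le_of_ne h1.1 (Ne.symm h2)
        have h4 : (r + 1) ^ 3 ≤ u * n + v + h := by
          by_contra hcon
          exact hno ⟨h3, by omega⟩
        exact ⟨by omega, h1.2⟩
    refine (Finset.card_le_card hsub).trans ((Finset.card_union_le _ _).trans ?_)
    rw [Nat.card_Ico, Finset.card_singleton]
    omega

end NPC
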